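import Mathlib

open MeasureTheory Set Topology Filter
open scoped ENNReal

namespace Pool.Agent.Results.MP_f79ffc_lc.AddUN

/-- Lebesgue null subsets of the real line. -/
def Null (A : Set ℝ) : Prop := volume A = 0

/-- Universally null subsets of the real line: null for (the outer measure induced by) every
atomless Borel probability measure. -/
def UnivNull (A : Set ℝ) : Prop :=
  ∀ μ : Measure ℝ, IsProbabilityMeasure μ → (∀ x, μ {x} = 0) → μ A = 0

/-- The additivity of a family of subsets of the line. -/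
noncomputable def addC (I : Set ℝ → Prop) : Cardinal.{0} :=
  sInf {κ | ∃ F : Set (Set ℝ), (∀ A ∈ F, I A) ∧ ¬ I (⋃₀ F) ∧ Cardinal.mk F = κ}

/-- The uniformity: least size of a set not in the family. -/
noncomputable def nonC (I : Set ℝ → Prop) : Cardinal.{0} :=
  sInf {κ | ∃ A : Set ℝ, ¬ I A ∧ Cardinal.mk A = κ}

/-- The cofinality: least size of a cofinal subfamily. -/
noncomputable def cofC (I : Set ℝ → Prop) : Cardinal.{0} :=
  sInf {κ | ∃ F : Set (Set ℝ), (∀ A ∈ F, I A) ∧ (∀ A, I A → ∃ B ∈ F, A ⊆ B) ∧ Cardinal.mk F = κ}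

/-- Cantor space. -/
abbrev C : Type := ℕ → Bool

/-- The initial segment of length n of a point of Cantor space. -/
def br (u : ℕ → Bool) (n : ℕ) : List Bool := (List.range n).map u

@[simp] lemma br_length (u : ℕ → Bool) (n : ℕ) : (br u n).length = n := by simp [br]

lemma br_get (u : ℕ → Bool) (n j : ℕ) (h : j < n) : (br u n)[j]? = some (u j) := by
  simp [br, h]

lemma br_eq_iff (u w : ℕ → Bool) (n : ℕ) : br u n = br w n ↔ ∀ i < n, u i = w i := by
  simp [br]

/-- The cylinder given by a finite binary word. -/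
def cyl (v : List Bool) : Set C := {w | br w v.length = v}

lemma mem_cyl_br (u w : C) (n : ℕ) : w ∈ cyl (br u n) ↔ ∀ i < n, w i = u i := by
  simp [cyl, br_eq_iff]

lemma br_mem (w : C) (n : ℕ) : w ∈ cyl (br w n) := by
  rw [mem_cyl_br]; intros; rfl

lemma isClopen_cyl (v : List Bool) : IsClopen (cyl v) := by
  have : cyl v = ⋂ i : Fin v.length, {w : C | w i = v.get i} := by
    ext w
    simp only [cyl, br, mem_ofPred_eq, mem_iInter, List.get_eq_getElem]
    constructor
    · intro h i
      have h2 : ((List.range v.length).map w)[i.1]? = v[i.1]? := by rw [h]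
      simpa using h2
    · intro h
      apply List.ext_getElem
      · simp
      · intro i h1 h2
        have := h ⟨i, h2⟩
        simpa using this
  rw [this]
  apply isClopen_iInter_of_finite
  intro i
  exact (isClopen_discrete {v.get i}).preimage (continuous_apply (i : ℕ))

lemma measurableSet_cyl (v : List Bool) : MeasurableSet (cyl v) :=
  (isClopen_cyl v).isOpen.measurableSet

/-- Cylinders form a basis. -/
lemma exists_cyl_subset {G : Set C} (hG : IsOpen G) {w : C} (hw : w ∈ G) :
    ∃ n, cyl (br w n) ⊆ G := by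
  have h := (PiNat.isTopologicalBasis_cylinders (fun _ : ℕ => Bool)).mem_nhds_iff.mp (hG.mem_nhds hw)
  obtain ⟨t, ⟨x, n, rfl⟩, hwt, htG⟩ := h
  refine ⟨n, fun z hz => htG ?_⟩
  rw [mem_cyl_br] at hz
  rw [PiNat.mem_cylinder_iff] at hwt ⊢
  intro i hi
  rw [hz i hi, hwt i hi]

/-- The space of labelled families of points of Cantor space. -/
abbrev X : Type := List Bool → C

variable (ρ : Measure C) [IsProbabilityMeasure ρ]

/-- the product measure -/
noncomputable def P : Measure X := Measure.infinitePi (fun _ : List Bool => ρ)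

instance : IsProbabilityMeasure (P ρ) := by unfold P; infer_instance

/-- Independence of one coordinate from a box not involving it. -/
lemma P_pi_inter (S : Finset (List Bool)) (W : List Bool → Set C)
    (hW : ∀ s ∈ S, MeasurableSet (W s)) (s : List Bool) (hs : s ∉ S) (V : Set C) (hV : MeasurableSet V) :
    P ρ (Set.pi S W ∩ {y | y s ∈ V}) = P ρ (Set.pi S W) * ρ V := by
  classical
  have h1 : Set.pi (S : Set (List Bool)) W ∩ {y : X | y s ∈ V}
      = Set.pi (insert s S : Finset (List Bool)) (fun t => if t = s then V else W t) := by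
    ext y
    simp only [mem_inter_iff, Set.mem_pi, mem_ofPred_eq, Finset.coe_insert, mem_insert_iff, Finset.mem_coe]
    constructor
    · rintro ⟨h1, h2⟩ t (rfl | ht)
      · simpa using h2
      · have : t ≠ s := fun h => hs (h ▸ ht)
        simpa [this] using h1 t ht
    · intro h
      refine ⟨fun t ht => ?_, ?_⟩
      · have : t ≠ s := fun h => hs (h ▸ ht)
        simpa [this] using h t (Or.inr ht)
      · simpa using h s (Or.inl rfl)
  rw [h1]
  unfold P
  rw [Measure.infinitePi_pi, Measure.infinitePi_pi _ hW, Finset.prod_insert hs]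
  · simp only [if_true]
    rw [mul_comm]
    congr 1
    apply Finset.prod_congr rfl
    intro t ht
    have : t ≠ s := fun h => hs (h ▸ ht)
    simp [this]
  · intro t ht
    by_cases h : t = s
    · simpa [h] using hV
    · simp only [h, if_false]
      rcases Finset.mem_insert.mp ht with h' | h'
      · exact absurd h' h
      · exact hW t h'

/-- Finite boxes. -/
def T (p : Finset (List Bool × List Bool)) : Set X := {y | ∀ q ∈ p, y q.1 ∈ cyl q.2}

lemma T_eq_pi (p : Finset (List Bool × List Bool)) :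
    T p = Set.pi ((p.image Prod.fst : Finset (List Bool)) : Set (List Bool))
      (fun t => {w : C | ∀ q ∈ p, q.1 = t → w ∈ cyl q.2}) := by
  ext y
  simp only [T, mem_ofPred_eq, Set.mem_pi, Finset.coe_image, mem_image, Finset.mem_coe]
  constructor
  · rintro h t - q hq rfl
    exact h q hq
  · intro h q hq
    exact h q.1 ⟨q, hq, rfl⟩ q hq rfl

lemma isClopen_T (p : Finset (List Bool × List Bool)) : IsClopen (T p) := by
  have : T p = ⋂ q ∈ p, {y : X | y q.1 ∈ cyl q.2} := by
    ext y; simp [T]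
  rw [this]
  apply isClopen_biInter_finset
  intro q _
  exact (isClopen_cyl q.2).preimage (continuous_apply q.1)

lemma P_T_inter (p : Finset (List Bool × List Bool)) (s : List Bool)
    (hs : ∀ q ∈ p, q.1 ≠ s) (V : Set C) (hV : MeasurableSet V) :
    P ρ (T p ∩ {y | y s ∈ V}) = P ρ (T p) * ρ V := by
  rw [T_eq_pi]
  apply P_pi_inter
  · intro t _
    have : {w : C | ∀ q ∈ p, q.1 = t → w ∈ cyl q.2} = ⋂ q ∈ p, {w : C | q.1 = t → w ∈ cyl q.2} := by
      ext w; simp
    rw [this]
    apply Finset.measurableSet_biInter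
    intro q _
    by_cases h : q.1 = t
    · simpa [h] using measurableSet_cyl q.2
    · simp [h]
  · simp only [Finset.mem_image, not_exists, not_and]
    intro q hq
    exact hs q hq
  · exact hV


lemma measurableSet_forall_br (φ : List Bool → Prop) : MeasurableSet {w : C | ∀ n, φ (br w n)} := by
  have : {w : C | ∀ n, φ (br w n)} = ⋂ n : ℕ, ⋃ v ∈ {v : List Bool | φ v ∧ v.length = n}, cyl v := by
    ext w
    simp only [mem_ofPred_eq, mem_iInter, mem_iUnion, exists_prop]
    constructor
    · intro h n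
      exact ⟨br w n, ⟨h n, by simp⟩, br_mem w n⟩
    · intro h n
      obtain ⟨v, ⟨hv, hn⟩, hw⟩ := h n
      have hw' : br w v.length = v := hw
      rw [← hn, hw']
      exact hv
  rw [this]
  refine MeasurableSet.iInter fun n => MeasurableSet.biUnion (Set.to_countable _) fun v _ => ?_
  exact measurableSet_cyl v

lemma take_br (w : C) (n j : ℕ) (h : j ≤ n) : (br w n).take j = br w j := by
  simp [br, ← List.map_take, List.take_range, h]

lemma cyl_disjoint_of_min (bad : List Bool → Prop) :
    ({v | bad v ∧ ∀ j < v.length, ¬ bad (v.take j)} : Set (List Bool)).PairwiseDisjoint cyl := by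
  intro v hv v' hv' hne
  rw [Function.onFun, Set.disjoint_left]
  intro w hw hw'
  have hw1 : br w v.length = v := hw
  have hw2 : br w v'.length = v' := hw'
  rcases lt_trichotomy v.length v'.length with h | h | h
  · apply hv'.2 _ h
    rw [← hw2, take_br _ _ _ h.le, hw1]
    exact hv.1
  · apply hne
    rw [← hw1, ← hw2, h]
  · apply hv.2 _ h
    rw [← hw1, take_br _ _ _ h.le, hw2]
    exact hv'.1

/-- A maximal-function type estimate on Cantor space. -/
lemma good_pos (ρ ν : Measure C) [IsFiniteMeasure ρ] (hac : ν ≪ ρ) (r : ℝ≥0∞)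
    (hr : r * ρ univ < ν univ) :
    MeasurableSet {w : C | ∀ n, r * ρ (cyl (br w n)) ≤ ν (cyl (br w n)) ∧ 0 < ρ (cyl (br w n))} ∧
    0 < ρ {w : C | ∀ n, r * ρ (cyl (br w n)) ≤ ν (cyl (br w n)) ∧ 0 < ρ (cyl (br w n))} := by
  set A := {w : C | ∀ n, r * ρ (cyl (br w n)) ≤ ν (cyl (br w n)) ∧ 0 < ρ (cyl (br w n))} with hA
  refine ⟨measurableSet_forall_br (fun v => r * ρ (cyl v) ≤ ν (cyl v) ∧ 0 < ρ (cyl v)), ?_⟩
  rw [pos_iff_ne_zero]
  intro h0
  have hν0 : ν A = 0 := hac h0
  set bad : List Bool → Prop := fun v => ν (cyl v) < r * ρ (cyl v) with hbad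
  set M : Set (List Bool) := {v | bad v ∧ ∀ j < v.length, ¬ bad (v.take j)} with hM
  set B1 : Set C := ⋃ v ∈ M, cyl v with hB1
  set B2 : Set C := ⋃ v ∈ {v : List Bool | ρ (cyl v) = 0}, cyl v with hB2
  have hcover : (univ : Set C) ⊆ A ∪ (B1 ∪ B2) := by
    intro w _
    by_cases hw : w ∈ A
    · exact Or.inl hw
    right
    rw [hA] at hw
    simp only [mem_ofPred_eq, not_forall] at hw
    obtain ⟨n, hn⟩ := hw
    by_cases h2 : 0 < ρ (cyl (br w n))
    · left
      have hb : bad (br w n) := by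
        by_contra hcon
        exact hn ⟨not_lt.mp hcon, h2⟩
      have hex : ∃ n, bad (br w n) := ⟨n, hb⟩
      classical
      rw [hB1]
      simp only [mem_iUnion, exists_prop]
      refine ⟨br w (Nat.find hex), ⟨Nat.find_spec hex, ?_⟩, br_mem w _⟩
      intro j hj
      rw [br_length] at hj
      rw [take_br _ _ _ hj.le]
      exact Nat.find_min hex hj
    · right
      rw [hB2]
      simp only [mem_iUnion, exists_prop]
      refine ⟨br w n, ?_, br_mem w _⟩
      simpa using h2
  have hν2 : ν B2 = 0 := by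
    apply hac
    rw [hB2, measure_biUnion_null_iff (Set.to_countable _)]
    intro v hv
    exact hv
  have hν1 : ν B1 ≤ r * ρ univ := by
    have e1 : ν B1 = ∑' v : M, ν (cyl v.1) :=
      measure_biUnion (Set.to_countable _) (cyl_disjoint_of_min bad) (fun v _ => measurableSet_cyl v)
    have e2 : ρ B1 = ∑' v : M, ρ (cyl v.1) :=
      measure_biUnion (Set.to_countable _) (cyl_disjoint_of_min bad) (fun v _ => measurableSet_cyl v)
    calc ν B1 = ∑' v : M, ν (cyl v.1) := e1
      _ ≤ ∑' v : M, r * ρ (cyl v.1) := ENNReal.tsum_le_tsum (fun v => le_of_lt v.2.1)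
      _ = r * ∑' v : M, ρ (cyl v.1) := ENNReal.tsum_mul_left
      _ = r * ρ B1 := by rw [e2]
      _ ≤ r * ρ univ := by gcongr; exact subset_univ _
  have : ν univ ≤ r * ρ univ := by
    calc ν univ ≤ ν (A ∪ (B1 ∪ B2)) := measure_mono hcover
      _ ≤ ν A + (ν B1 + ν B2) := (measure_union_le _ _).trans (add_le_add le_rfl (measure_union_le _ _))
      _ = ν B1 := by rw [hν0, hν2]; simp
      _ ≤ r * ρ univ := hν1
  exact absurd this (not_le.mpr hr)


/-- distribution of the coordinate s on the part of K in the box T p -/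
noncomputable def nu (K : Set X) (p : Finset (List Bool × List Bool)) (s : List Bool) : Measure C :=
  ((P ρ).restrict (K ∩ T p)).map (fun y => y s)

lemma nu_apply (K : Set X) (p : Finset (List Bool × List Bool)) (s : List Bool) {V : Set C}
    (hV : MeasurableSet V) : nu ρ K p s V = P ρ ({y | y s ∈ V} ∩ (K ∩ T p)) := by
  unfold nu
  rw [Measure.map_apply (measurable_pi_apply s) hV, Measure.restrict_apply]
  · rfl
  · exact measurable_pi_apply s hV

lemma T_empty : T ∅ = univ := by ext y; simp [T]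

lemma P_coord (s : List Bool) {V : Set C} (hV : MeasurableSet V) : P ρ {y | y s ∈ V} = ρ V := by
  have h := P_T_inter ρ ∅ s (by simp) V hV
  rw [T_empty] at h
  simpa using h

lemma nu_ac (K : Set X) (p : Finset (List Bool × List Bool)) (s : List Bool) : nu ρ K p s ≪ ρ := by
  refine Measure.AbsolutelyContinuous.mk fun V hV h0 => ?_
  rw [nu_apply ρ K p s hV]
  refine measure_mono_null inter_subset_left ?_
  rw [P_coord ρ s hV, h0]

/-- the countable family of sets of positive measure attached to K -/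
def fam (K : Set X) : Set (Set C) :=
  {A | ∃ (p : Finset (List Bool × List Bool)) (s : List Bool) (q : ℚ),
    ((Real.toNNReal (q : ℝ) : ℝ≥0∞) < P ρ (K ∩ T p)) ∧
    A = {w : C | ∀ n, (Real.toNNReal (q : ℝ) : ℝ≥0∞) * ρ (cyl (br w n)) ≤ nu ρ K p s (cyl (br w n)) ∧
      0 < ρ (cyl (br w n))}}

lemma fam_countable (K : Set X) : (fam ρ K).Countable := by
  have : fam ρ K ⊆ range (fun a : Finset (List Bool × List Bool) × List Bool × ℚ =>
      {w : C | ∀ n, (Real.toNNReal (a.2.2 : ℝ) : ℝ≥0∞) * ρ (cyl (br w n))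
        ≤ nu ρ K a.1 a.2.1 (cyl (br w n)) ∧ 0 < ρ (cyl (br w n))}) := by
    rintro A ⟨p, s, q, -, rfl⟩
    exact ⟨(p, s, q), rfl⟩
  exact (countable_range _).mono this

lemma fam_pos (K : Set X) (A : Set C) (hA : A ∈ fam ρ K) : MeasurableSet A ∧ 0 < ρ A := by
  obtain ⟨p, s, q, hq, rfl⟩ := hA
  apply good_pos ρ (nu ρ K p s) (nu_ac ρ K p s)
  rw [measure_univ, mul_one, nu_apply ρ K p s MeasurableSet.univ]
  simpa using hq

/-- The fusion lemma: every compact set of positive measure contains, for every u, a point whose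
set of marked labels is almost exactly the branch of u. -/
lemma fusion (K : Set X) (hK : IsCompact K) (hPK : 0 < P ρ K) (N : Set C) (G : List Bool → Set C)
    (hN : ∀ A ∈ fam ρ K, (N ∩ A).Nonempty) (hG : ∀ t, IsOpen (G t)) (hNG : ∀ t, N ⊆ G t)
    (hsum : ∑' t, ρ (G t) ≠ ∞) (u : ℕ → Bool) :
    ∃ y ∈ K, ∃ n₀ : ℕ, (∀ n ≥ n₀, y (br u n) ∈ G (br u n)) ∧
      (∀ t : List Bool, n₀ ≤ t.length → y t ∈ G t → t = br u t.length) := by
  classical
  set γ : ℝ≥0∞ := P ρ K / 2 with hγ
  have hγ0 : 0 < γ := by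
    rw [hγ]; exact ENNReal.div_pos hPK.ne' (by simp)
  have hγK : γ < P ρ K := ENNReal.half_lt_self hPK.ne' (measure_ne_top _ _)
  have hγtop : γ ≠ ∞ := (lt_of_lt_of_le hγK le_top).ne
  -- choose n₀
  obtain ⟨n₀, hn₀⟩ : ∃ n₀ : ℕ, ∑' t : {t : List Bool // n₀ ≤ t.length}, ρ (G t.1) ≤ γ := by
    have h := ENNReal.tendsto_tsum_compl_atTop_zero hsum
    obtain ⟨s, hs⟩ := ((ENNReal.tendsto_nhds_zero.mp h) γ hγ0).exists
    refine ⟨s.sup List.length + 1, le_trans ?_ hs⟩
    let j : {t : List Bool // s.sup List.length + 1 ≤ t.length} → {t : List Bool // t ∉ s} :=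
      fun t => ⟨t.1, fun hts => by
        have h1 : t.1.length ≤ s.sup List.length := Finset.le_sup (f := List.length) hts
        have h2 := t.2
        omega⟩
    have hj : Function.Injective j := by
      intro a b hab
      apply Subtype.ext
      exact congrArg (fun z : {t : List Bool // t ∉ s} => z.1) hab
    exact ENNReal.tsum_comp_le_tsum_of_injective hj (fun t : {t : List Bool // t ∉ s} => ρ (G t.1))
  have hKc : IsClosed K := hK.isClosed
  -- invariant
  let Inv : ℕ → Finset (List Bool × List Bool) → Prop := fun k p =>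
    γ * P ρ (T p) < P ρ (K ∩ T p) ∧
    (∀ q ∈ p, ∃ n, n < n₀ + k ∧ q.1 = br u n) ∧
    (∀ n, n₀ ≤ n → n < n₀ + k → ∀ y ∈ T p, y (br u n) ∈ G (br u n))
  have h0 : Inv 0 ∅ := by
    refine ⟨?_, by simp, ?_⟩
    · rw [T_empty]; simpa using hγK
    · intro n h1 h2; omega
  have hstep : ∀ k p, Inv k p → ∃ p', Inv (k + 1) p' ∧ T p' ⊆ T p := by
    rintro k p ⟨h1, h2, h3⟩
    set s : List Bool := br u (n₀ + k) with hs
    have hsp : ∀ q ∈ p, q.1 ≠ s := by
      intro q hq heq
      obtain ⟨n, hn, hqn⟩ := h2 q hq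
      have : (br u n).length = (br u (n₀ + k)).length := by rw [← hqn, heq]
      simp at this
      omega
    obtain ⟨q, hq0, hq1, hq2⟩ := ENNReal.lt_iff_exists_rat_btwn.mp h1
    set r : ℝ≥0∞ := (Real.toNNReal (q : ℝ) : ℝ≥0∞) with hr
    obtain ⟨w, hwN, hwA⟩ := hN _ ⟨p, s, q, hq2, rfl⟩
    obtain ⟨n, hn⟩ := exists_cyl_subset (hG s) (hNG s hwN)
    obtain ⟨hw1, hw2⟩ := hwA n
    set v := br w n with hv
    refine ⟨insert (s, v) p, ⟨?_, ?_, ?_⟩, ?_⟩
    · have hT : T (insert (s, v) p) = T p ∩ {y | y s ∈ cyl v} := by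
        ext y
        simp only [T, Finset.mem_insert, forall_eq_or_imp, mem_ofPred_eq, mem_inter_iff]
        tauto
      rw [hT, P_T_inter ρ p s hsp _ (measurableSet_cyl v)]
      have e1 : K ∩ (T p ∩ {y | y s ∈ cyl v}) = {y | y s ∈ cyl v} ∩ (K ∩ T p) := by
        ext y; simp only [mem_inter_iff]; tauto
      rw [e1, ← nu_apply ρ K p s (measurableSet_cyl v)]
      calc γ * (P ρ (T p) * ρ (cyl v)) = (γ * P ρ (T p)) * ρ (cyl v) := by ring
        _ < r * ρ (cyl v) := by
            apply (ENNReal.mul_lt_mul_iff_left hw2.ne' (measure_ne_top _ _)).mpr hq1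
        _ ≤ nu ρ K p s (cyl v) := hw1
    · intro q' hq'
      rcases Finset.mem_insert.mp hq' with rfl | hq'
      · exact ⟨n₀ + k, by omega, rfl⟩
      · obtain ⟨m, hm, hqm⟩ := h2 q' hq'
        exact ⟨m, by omega, hqm⟩
    · intro m hm1 hm2 y hy
      by_cases hmk : m < n₀ + k
      · apply h3 m hm1 hmk y
        intro q' hq'
        exact hy q' (Finset.mem_insert_of_mem hq')
      · have : m = n₀ + k := by omega
        subst this
        apply hn
        exact hy (s, v) (Finset.mem_insert_self _ _)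
    · intro y hy q' hq'
      exact hy q' (Finset.mem_insert_of_mem hq')
  choose! f hf using hstep
  let p : ℕ → Finset (List Bool × List Bool) := fun k => Nat.rec ∅ (fun k p => f k p) k
  have hp : ∀ k, Inv k (p k) := by
    intro k
    induction k with
    | zero => exact h0
    | succ k ih => exact (hf k (p k) ih).1
  have hpT : ∀ k, T (p (k + 1)) ⊆ T (p k) := fun k => (hf k (p k) (hp k)).2
  -- the noise set
  set Q : Set X := {y | ∀ t : List Bool, n₀ ≤ t.length → t ≠ br u t.length → y t ∉ G t} with hQ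
  have hQc : IsClosed Q := by
    have : Q = ⋂ (t : List Bool) (_ : n₀ ≤ t.length) (_ : t ≠ br u t.length), {y : X | y t ∈ (G t)ᶜ} := by
      ext y; simp [hQ]
    rw [this]
    refine isClosed_iInter fun t => isClosed_iInter fun _ => isClosed_iInter fun _ => ?_
    exact (hG t).isClosed_compl.preimage (continuous_apply t)
  have hne : ∀ k, (K ∩ T (p k) ∩ Q).Nonempty := by
    intro k
    obtain ⟨h1, h2, -⟩ := hp k
    by_contra hemp
    rw [Set.not_nonempty_iff_eq_empty] at hemp
    have hsub : K ∩ T (p k) ⊆ ⋃ t : {t : List Bool // n₀ ≤ t.length ∧ t ≠ br u t.length},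
        (T (p k) ∩ {y | y t.1 ∈ G t.1}) := by
      rintro y ⟨hyK, hyT⟩
      have hyQ : y ∉ Q := fun hyQ => by
        have : y ∈ K ∩ T (p k) ∩ Q := ⟨⟨hyK, hyT⟩, hyQ⟩
        rw [hemp] at this; exact this
      simp only [hQ, mem_ofPred_eq, not_forall, not_not] at hyQ
      obtain ⟨t, ht1, ht2, ht3⟩ := hyQ
      exact mem_iUnion.mpr ⟨⟨t, ht1, ht2⟩, hyT, ht3⟩
    have : P ρ (K ∩ T (p k)) ≤ γ * P ρ (T (p k)) := by
      calc P ρ (K ∩ T (p k)) ≤ ∑' t : {t : List Bool // n₀ ≤ t.length ∧ t ≠ br u t.length},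
              P ρ (T (p k) ∩ {y | y t.1 ∈ G t.1}) := (measure_mono hsub).trans (measure_iUnion_le _)
        _ = ∑' t : {t : List Bool // n₀ ≤ t.length ∧ t ≠ br u t.length},
              P ρ (T (p k)) * ρ (G t.1) := by
            apply tsum_congr
            intro t
            apply P_T_inter ρ _ _ _ _ (hG t.1).measurableSet
            intro q hq heq
            obtain ⟨n, hn, hqn⟩ := h2 q hq
            apply t.2.2
            rw [← heq, hqn]; simp
        _ = P ρ (T (p k)) * ∑' t : {t : List Bool // n₀ ≤ t.length ∧ t ≠ br u t.length}, ρ (G t.1) :=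
            ENNReal.tsum_mul_left
        _ ≤ P ρ (T (p k)) * ∑' t : {t : List Bool // n₀ ≤ t.length}, ρ (G t.1) := by
            gcongr
            let j : {t : List Bool // n₀ ≤ t.length ∧ t ≠ br u t.length} →
              {t : List Bool // n₀ ≤ t.length} := fun t => ⟨t.1, t.2.1⟩
            have hj : Function.Injective j := by
              intro a b hab
              apply Subtype.ext
              exact congrArg (fun z : {t : List Bool // n₀ ≤ t.length} => z.1) hab
            exact ENNReal.tsum_comp_le_tsum_of_injective hj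
              (fun t : {t : List Bool // n₀ ≤ t.length} => ρ (G t.1))
        _ ≤ P ρ (T (p k)) * γ := by gcongr
        _ = γ * P ρ (T (p k)) := mul_comm _ _
    exact absurd this (not_le.mpr h1)
  obtain ⟨y, hy⟩ := IsCompact.nonempty_iInter_of_sequence_nonempty_isCompact_isClosed
    (fun k => K ∩ T (p k) ∩ Q)
    (fun k => by
      rintro y ⟨⟨hyK, hyT⟩, hyQ⟩
      exact ⟨⟨hyK, hpT k hyT⟩, hyQ⟩)
    hne
    ((hK.inter_right (isClopen_T _).isClosed).inter_right hQc)
    (fun k => (hKc.inter (isClopen_T _).isClosed).inter hQc)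
  rw [mem_iInter] at hy
  refine ⟨y, (hy 0).1.1, n₀, ?_, ?_⟩
  · intro n hn
    have h := (hp (n + 1)).2.2 n hn (by omega) y (hy (n + 1)).1.2
    exact h
  · intro t ht hyt
    by_contra hne'
    exact (hy 0).2 t ht hne' hyt


lemma continuous_cdf (μ : Measure ℝ) [IsProbabilityMeasure μ] (hμ : ∀ x, μ {x} = 0) :
    Continuous (ProbabilityTheory.cdf μ) := by
  rw [continuous_iff_continuousAt]
  intro x
  have hm := ProbabilityTheory.monotone_cdf μ
  rw [hm.continuousAt_iff_leftLim_eq_rightLim]
  rw [StieltjesFunction.rightLim_eq]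
  have h1 : (ProbabilityTheory.cdf μ).measure {x} = 0 := by
    rw [ProbabilityTheory.measure_cdf]; exact hμ x
  rw [StieltjesFunction.measure_singleton, ENNReal.ofReal_eq_zero] at h1
  have h2 : Function.leftLim (ProbabilityTheory.cdf μ) x ≤ ProbabilityTheory.cdf μ x :=
    hm.leftLim_le le_rfl
  linarith

lemma measure_cdf_le (μ : Measure ℝ) [IsProbabilityMeasure μ] (hμ : ∀ x, μ {x} = 0) (t : ℝ)
    (h0 : 0 ≤ t) (h1 : t < 1) : μ {x | ProbabilityTheory.cdf μ x ≤ t} = ENNReal.ofReal t := by
  set F := ProbabilityTheory.cdf μ with hF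
  have hc : Continuous F := continuous_cdf μ hμ
  have hm : Monotone F := ProbabilityTheory.monotone_cdf μ
  set S := {x | F x ≤ t} with hS
  by_cases hne : S.Nonempty
  · have hbdd : BddAbove S := by
      have := (ProbabilityTheory.tendsto_cdf_atTop μ).eventually (lt_mem_nhds h1)
      obtain ⟨b, hb⟩ := this.exists
      refine ⟨b, fun x hx => ?_⟩
      by_contra hcon
      have : F b ≤ F x := hm (not_le.mp hcon).le
      have hx' : F x ≤ t := hx
      have hb' : t < F b := hb
      linarith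
    have hcl : IsClosed S := isClosed_le hc continuous_const
    set s := sSup S with hs
    have hsS : s ∈ S := hcl.csSup_mem hne hbdd
    have hSI : S = Iic s := by
      ext x
      constructor
      · intro hx; exact le_csSup hbdd hx
      · intro hx
        exact (hm hx).trans hsS
    have hFs : F s = t := by
      apply le_antisymm hsS
      by_contra hcon
      have hlt : F s < t := not_le.mp hcon
      have h3 : ∀ᶠ y in 𝓝 s, F y < t := hc.continuousAt.eventually (gt_mem_nhds hlt)
      have h4 : ∀ᶠ y in 𝓝[>] s, F y < t := h3.filter_mono nhdsWithin_le_nhds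
      obtain ⟨y, hy1, hy2⟩ := (h4.and self_mem_nhdsWithin).exists
      have hyS : y ∈ S := hy1.le
      have : y ≤ s := le_csSup hbdd hyS
      exact absurd hy2 (not_lt.mpr this)
    rw [hSI, ← ProbabilityTheory.ofReal_cdf μ s, ← hF, hFs]
  · have hemp : S = ∅ := Set.not_nonempty_iff_eq_empty.mp hne
    have ht : t ≤ 0 := by
      by_contra hcon
      have hpos : 0 < t := not_le.mp hcon
      have := (ProbabilityTheory.tendsto_cdf_atBot μ).eventually (gt_mem_nhds hpos)
      obtain ⟨b, hb⟩ := this.exists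
      exact hne ⟨b, le_of_lt hb⟩
    rw [hemp, measure_empty, ENNReal.ofReal_of_nonpos ht]

lemma map_cdf (μ : Measure ℝ) [IsProbabilityMeasure μ] (hμ : ∀ x, μ {x} = 0) :
    μ.map (ProbabilityTheory.cdf μ) = volume.restrict (Icc (0 : ℝ) 1) := by
  set F := ProbabilityTheory.cdf μ with hF
  have hc : Continuous F := continuous_cdf μ hμ
  have : IsFiniteMeasure (μ.map F) := by
    have : IsProbabilityMeasure (μ.map F) := Measure.isProbabilityMeasure_map hc.measurable.aemeasurable
    infer_instance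
  apply Measure.ext_of_Iic
  intro t
  rw [Measure.map_apply hc.measurable measurableSet_Iic, Measure.restrict_apply measurableSet_Iic]
  have hpre : F ⁻¹' Iic t = {x | F x ≤ t} := rfl
  rw [hpre]
  rcases lt_or_ge t 0 with ht | ht
  · have e1 : {x | F x ≤ t} = ∅ := by
      ext x
      simp only [mem_ofPred_eq, mem_empty_iff_false, iff_false, not_le]
      exact lt_of_lt_of_le ht (ProbabilityTheory.cdf_nonneg μ x)
    have e2 : Iic t ∩ Icc (0 : ℝ) 1 = ∅ := by
      ext x
      simp only [mem_inter_iff, mem_Iic, mem_Icc, mem_empty_iff_false, iff_false]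
      rintro ⟨h1, h2, h3⟩; linarith
    rw [e1, e2]; simp
  · rcases lt_or_ge t 1 with ht1 | ht1
    · rw [measure_cdf_le μ hμ t ht ht1]
      have e2 : Iic t ∩ Icc (0 : ℝ) 1 = Icc 0 t := by
        ext x
        simp only [mem_inter_iff, mem_Iic, mem_Icc]
        constructor
        · rintro ⟨h1, h2, h3⟩; exact ⟨h2, h1⟩
        · rintro ⟨h1, h2⟩; exact ⟨h2, h1, by linarith⟩
      rw [e2, Real.volume_Icc]; simp
    · have e1 : {x | F x ≤ t} = univ := by
        ext x
        simp only [mem_ofPred_eq, mem_univ, iff_true]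
        exact (ProbabilityTheory.cdf_le_one μ x).trans ht1
      have e2 : Iic t ∩ Icc (0 : ℝ) 1 = Icc 0 1 := by
        ext x
        simp only [mem_inter_iff, mem_Iic, mem_Icc]
        constructor
        · rintro ⟨h1, h2, h3⟩; exact ⟨h2, h3⟩
        · rintro ⟨h1, h2⟩; exact ⟨by linarith, h1, h2⟩
      rw [e1, e2, measure_univ, Real.volume_Icc]; simp

/-- Transfer of an atomless measure on a standard Borel space to the unit interval. -/
lemma exists_toReal {S : Type*} [MeasurableSpace S] [StandardBorelSpace S] (μ : Measure S)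
    [IsProbabilityMeasure μ] (hμ : ∀ x, μ {x} = 0) :
    ∃ f : S → ℝ, Measurable f ∧ μ.map f = volume.restrict (Icc (0 : ℝ) 1) ∧
      ∀ Z, μ Z = 0 → volume (f '' Z) = 0 := by
  set g := embeddingReal S with hg
  have hgm : MeasurableEmbedding g := measurableEmbedding_embeddingReal S
  have : IsProbabilityMeasure (μ.map g) := Measure.isProbabilityMeasure_map hgm.measurable.aemeasurable
  have hat : ∀ x, (μ.map g) {x} = 0 := by
    intro x
    rw [hgm.map_apply]
    by_cases hx : ∃ y, g y = x
    · obtain ⟨y, rfl⟩ := hx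
      have : g ⁻¹' {g y} = {y} := by
        ext z; simp [hgm.injective.eq_iff]
      rw [this]; exact hμ y
    · have : g ⁻¹' {x} = ∅ := by
        ext z
        simp only [mem_preimage, mem_singleton_iff, mem_empty_iff_false, iff_false]
        exact fun h => hx ⟨z, h⟩
      rw [this]; simp
  set μ' := μ.map g with hμ'
  set F := ProbabilityTheory.cdf μ' with hF
  have hc : Continuous F := continuous_cdf μ' hat
  have hmap := map_cdf μ' hat
  refine ⟨F ∘ g, hc.measurable.comp hgm.measurable, ?_, ?_⟩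
  · rw [← Measure.map_map hc.measurable hgm.measurable]
    exact hmap
  · -- null sets go to null sets
    have key : ∀ Z : Set ℝ, MeasurableSet Z → μ' Z = 0 → volume (F '' Z) = 0 := by
      intro Z hZ hZ0
      set Fl : Set ℝ := ⋃ q : ℚ, F ⁻¹' {F q} with hFl
      have hFlm : MeasurableSet Fl := MeasurableSet.iUnion fun q => hc.measurable (measurableSet_singleton _)
      set Z' := Z \ Fl with hZ'
      have hZ'm : MeasurableSet Z' := hZ.diff hFlm
      have hsep : ∀ x y, x ∈ Z' → F x = F y → x = y := by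
        intro x y hx hxy
        by_contra hne
        have hm : Monotone F := ProbabilityTheory.monotone_cdf μ'
        rcases lt_or_gt_of_ne hne with h | h
        · obtain ⟨q, hq1, hq2⟩ := exists_rat_btwn h
          have e1 : F x ≤ F q := hm hq1.le
          have e2 : F q ≤ F y := hm hq2.le
          apply hx.2
          rw [hFl]; simp only [mem_iUnion, mem_preimage, mem_singleton_iff]
          exact ⟨q, le_antisymm e1 (by rw [hxy]; exact e2)⟩
        · obtain ⟨q, hq1, hq2⟩ := exists_rat_btwn h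
          have e1 : F y ≤ F q := hm hq1.le
          have e2 : F q ≤ F x := hm hq2.le
          apply hx.2
          rw [hFl]; simp only [mem_iUnion, mem_preimage, mem_singleton_iff]
          exact ⟨q, le_antisymm (by rw [hxy]; exact e1) e2⟩
      have hinj : InjOn F Z' := fun x hx y _ hxy => hsep x y hx hxy
      have himm : MeasurableSet (F '' Z') := hZ'm.image_of_measurable_injOn hc.measurable hinj
      have hpre : F ⁻¹' (F '' Z') = Z' := by
        ext x
        constructor
        · rintro ⟨z, hz, hzx⟩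
          have := hsep z x hz hzx
          rwa [← this]
        · intro hx; exact ⟨x, hx, rfl⟩
      have h1 : volume (F '' Z') = 0 := by
        have h2 : (μ'.map F) (F '' Z') = 0 := by
          rw [Measure.map_apply hc.measurable himm, hpre]
          exact measure_mono_null sdiff_subset hZ0
        rw [hmap, Measure.restrict_apply himm] at h2
        have h3 : F '' Z' ∩ Icc 0 1 = F '' Z' := by
          apply inter_eq_left.mpr
          rintro _ ⟨z, _, rfl⟩
          exact ⟨ProbabilityTheory.cdf_nonneg μ' z, ProbabilityTheory.cdf_le_one μ' z⟩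
        rwa [h3] at h2
      have h4 : F '' Z ⊆ F '' Z' ∪ range (fun q : ℚ => F q) := by
        rintro _ ⟨z, hz, rfl⟩
        by_cases hzF : z ∈ Fl
        · right
          rw [hFl] at hzF
          simp only [mem_iUnion, mem_preimage, mem_singleton_iff] at hzF
          obtain ⟨q, hq⟩ := hzF
          exact ⟨q, hq.symm⟩
        · left
          exact ⟨z, ⟨hz, hzF⟩, rfl⟩
      refine measure_mono_null h4 (measure_union_null h1 ?_)
      exact (countable_range _).measure_zero _
    intro Z hZ0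
    have h1 : μ' (g '' Z) = 0 := by
      rw [hμ', hgm.map_apply, hgm.injective.preimage_image, hZ0]
    obtain ⟨W, hW1, hW2, hW3⟩ := exists_measurable_superset_of_null h1
    have h2 := key W hW2 hW3
    refine measure_mono_null ?_ h2
    rintro _ ⟨z, hz, rfl⟩
    exact ⟨g z, hW1 ⟨z, hz, rfl⟩, rfl⟩

/-- The decoder attached to a labelled family of open sets. -/
noncomputable def dec (G : List Bool → Set C) (y : X) : C := fun j =>
  @decide (∃ n₁ : ℕ, ∀ n ≥ n₁, ∃ t : List Bool, t.length = n ∧ t[j]? = some true ∧ y t ∈ G t)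
    (Classical.propDecidable _)

lemma measurable_dec (G : List Bool → Set C) (hG : ∀ t, IsOpen (G t)) : Measurable (dec G) := by
  rw [measurable_pi_iff]
  intro j
  apply measurable_to_bool
  have : (fun y => dec G y j) ⁻¹' {true} = ⋃ n₁ : ℕ, ⋂ n : ℕ, ⋂ (_ : n ≥ n₁),
      ⋃ (t : List Bool) (_ : t.length = n ∧ t[j]? = some true), {y : X | y t ∈ G t} := by
    ext y
    simp only [mem_preimage, mem_singleton_iff, dec, decide_eq_true_eq, mem_iUnion, mem_iInter,
      mem_ofPred_eq, exists_prop, and_assoc]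
  rw [this]
  refine MeasurableSet.iUnion fun n₁ => MeasurableSet.iInter fun n => MeasurableSet.iInter fun _ =>
    MeasurableSet.iUnion fun t => MeasurableSet.iUnion fun _ => ?_
  exact measurable_pi_apply t (hG t).measurableSet

lemma dec_eq (G : List Bool → Set C) (y : X) (u : C) (n₀ : ℕ)
    (h1 : ∀ n ≥ n₀, y (br u n) ∈ G (br u n))
    (h2 : ∀ t : List Bool, n₀ ≤ t.length → y t ∈ G t → t = br u t.length) : dec G y = u := by
  funext j
  cases hu : u j with
  | true =>
    rw [dec]
    apply @decide_eq_true _ (Classical.propDecidable _)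
    refine ⟨max n₀ (j + 1), fun n hn => ⟨br u n, by simp, ?_, h1 n (le_trans (le_max_left _ _) hn)⟩⟩
    rw [br_get u n j (lt_of_lt_of_le (Nat.lt_succ_self j) (le_trans (le_max_right _ _) hn)), hu]
  | false =>
    rw [dec]
    apply @decide_eq_false _ (Classical.propDecidable _)
    rintro ⟨n₁, h⟩
    obtain ⟨t, ht1, ht2, ht3⟩ := h (max n₁ (max n₀ (j + 1))) (le_max_left _ _)
    have ht4 : n₀ ≤ t.length := by rw [ht1]; exact le_trans (le_max_left _ _) (le_max_right _ _)
    have ht5 : j < t.length := by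
      rw [ht1]
      exact lt_of_lt_of_le (Nat.lt_succ_self j) (le_trans (le_max_right _ _) (le_max_right _ _))
    have ht6 := h2 t ht4 ht3
    rw [ht6, br_get u t.length j ht5, hu] at ht2
    simp at ht2

/-- The decoders. -/
lemma exists_decoders {ι : Type*} (N : ι → Set C) (hnull : ∀ i, ρ (N i) = 0)
    (hcov : ∀ F : Set (Set C), F.Countable → (∀ A ∈ F, MeasurableSet A ∧ 0 < ρ A) →
      ∃ i, ∀ A ∈ F, (N i ∩ A).Nonempty) :
    ∃ Φ : ι → X → C, (∀ i, Measurable (Φ i)) ∧
      ∀ K : Set X, IsCompact K → 0 < P ρ K → ∃ i, ∀ u : C, ∃ y ∈ K, Φ i y = u := by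
  obtain ⟨ε, hε, hεs⟩ := ENNReal.exists_pos_sum_of_countable' (ι := List Bool) (ε := 1) (by simp)
  have h : ∀ i, ∀ t : List Bool, ∃ U ⊇ N i, IsOpen U ∧ ρ U < ε t := fun i t =>
    Set.exists_isOpen_lt_of_lt (N i) (ε t) (by rw [hnull i]; exact hε t)
  choose G hGN hGo hGε using h
  refine ⟨fun i => dec (G i), fun i => measurable_dec (G i) (hGo i), ?_⟩
  intro K hK hPK
  obtain ⟨i, hi⟩ := hcov (fam ρ K) (fam_countable ρ K) (fam_pos ρ K)
  refine ⟨i, fun u => ?_⟩
  have hsum : ∑' t, ρ (G i t) ≠ ∞ := by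
    have : ∑' t, ρ (G i t) ≤ ∑' t, ε t := ENNReal.tsum_le_tsum fun t => (hGε i t).le
    exact (lt_of_le_of_lt this (lt_trans hεs (by simp))).ne
  obtain ⟨y, hyK, n₀, h1, h2⟩ := fusion ρ K hK hPK (N i) (G i) hi (hGo i) (hGN i) hsum u
  exact ⟨y, hyK, dec_eq (G i) y u n₀ h1 h2⟩

/-- A measure is atomless. -/
def Atomless {S : Type*} [MeasurableSpace S] (μ : Measure S) : Prop := ∀ x, μ {x} = 0

/-- universally null subsets of a measurable space -/
def UN {S : Type*} [MeasurableSpace S] (A : Set S) : Prop :=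
  ∀ μ : Measure S, IsProbabilityMeasure μ → Atomless μ → μ A = 0

lemma UN.finite {S : Type*} [MeasurableSpace S] {A : Set S} (hA : UN A) (μ : Measure S)
    [IsFiniteMeasure μ] (hμ : Atomless μ) : μ A = 0 := by
  by_cases h : μ univ = 0
  · exact measure_mono_null (subset_univ _) h
  · have h1 : IsProbabilityMeasure ((μ univ)⁻¹ • μ) := by
      constructor
      rw [Measure.smul_apply, smul_eq_mul]
      exact ENNReal.inv_mul_cancel h (measure_ne_top _ _)
    have h2 := hA ((μ univ)⁻¹ • μ) h1 (fun x => by simp [hμ x])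
    rw [Measure.smul_apply, smul_eq_mul, mul_eq_zero] at h2
    rcases h2 with h2 | h2
    · rw [ENNReal.inv_eq_zero] at h2
      exact absurd h2 (measure_ne_top _ _)
    · exact h2

/-- Sets that a measurable map sends injectively into a universally null set are universally
null. -/
lemma UN.of_map {S S' : Type*} [MeasurableSpace S] [MeasurableSpace S'] [MeasurableSingletonClass S']
    [MeasurableSingletonClass S]
    {U : Set S'} (hU : UN U) {Φ : S → S'} (hΦ : Measurable Φ) {Y : Set S} (hY : ∀ y ∈ Y, Φ y ∈ U)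
    (hinj : InjOn Φ Y) : UN Y := by
  intro μ hμ1 hμ2
  set m := μ.map Φ with hm
  have hmf : IsProbabilityMeasure m := Measure.isProbabilityMeasure_map hΦ.aemeasurable
  set D : Set S' := {u | 0 < m {u}} with hD
  have hDc : D.Countable := by
    apply Measure.countable_meas_pos_of_disjoint_iUnion (μ := m) (As := fun u : S' => ({u} : Set S'))
    · intro u; exact measurableSet_singleton u
    · intro a b hab
      simpa [Function.onFun] using hab
  have hsub : Y ⊆ (Y ∩ Φ ⁻¹' D) ∪ Φ ⁻¹' (U ∩ Dᶜ) := by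
    intro y hy
    by_cases h : Φ y ∈ D
    · exact Or.inl ⟨hy, h⟩
    · exact Or.inr ⟨hY y hy, h⟩
  refine measure_mono_null hsub (measure_union_null ?_ ?_)
  · have hc : (Y ∩ Φ ⁻¹' D).Countable := by
      apply Set.MapsTo.countable_of_injOn (f := Φ) (t := D)
      · rintro y ⟨_, hy⟩; exact hy
      · exact hinj.mono inter_subset_left
      · exact hDc
    rw [← Set.biUnion_of_singleton (Y ∩ Φ ⁻¹' D)]
    rw [measure_biUnion_null_iff hc]
    intro y _
    exact hμ2 y
  · apply Measure.preimage_null_of_map_null hΦ.aemeasurable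
    have h1 : (m.restrict Dᶜ) U = 0 := by
      apply hU.finite
      intro u
      rw [Measure.restrict_apply (measurableSet_singleton u)]
      by_cases hu : u ∈ D
      · have : ({u} : Set S') ∩ Dᶜ = ∅ := by
          ext v; simp only [mem_inter_iff, mem_singleton_iff, mem_compl_iff, mem_empty_iff_false,
            iff_false, not_and, not_not]
          rintro rfl; exact hu
        rw [this, measure_empty]
      · refine measure_mono_null inter_subset_left ?_
        simpa [hD] using hu
    rwa [Measure.restrict_apply' hDc.measurableSet.compl] at h1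

/-- The main construction. -/
lemma construct {ι : Type*} (N : ι → Set C) (hnull : ∀ i, ρ (N i) = 0)
    (hcov : ∀ F : Set (Set C), F.Countable → (∀ A ∈ F, MeasurableSet A ∧ 0 < ρ A) →
      ∃ i, ∀ A ∈ F, (N i ∩ A).Nonempty)
    {Ξ : Type*} (Z : Ξ → Set X) (hZ : ∀ ξ, P ρ (Z ξ) = 0)
    (hcof : ∀ A, P ρ A = 0 → ∃ ξ, A ⊆ Z ξ)
    (j : Ξ → C) (hj : Function.Injective j) (hU : UN (range j)) :
    ∃ Y : ι → Set X, (∀ i, UN (Y i)) ∧ P ρ (⋃ i, Y i) ≠ 0 := by
  obtain ⟨Φ, hΦm, hΦ⟩ := exists_decoders ρ N hnull hcov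
  have h1 : ∀ ξ, ∃ K : Set X, IsCompact K ∧ 0 < P ρ K ∧ Disjoint K (Z ξ) := by
    intro ξ
    obtain ⟨W, hW1, hW2, hW3⟩ := exists_measurable_superset_of_null (hZ ξ)
    have hWc : 0 < P ρ Wᶜ := by
      rw [measure_compl hW2 (measure_ne_top _ _), hW3]; simp
    obtain ⟨K, hKW, hK, hPK⟩ := hW2.compl.exists_lt_isCompact hWc
    refine ⟨K, hK, hPK, ?_⟩
    rw [Set.disjoint_left]
    intro y hyK hyZ
    exact hKW hyK (hW1 hyZ)
  choose K hKc hKP hKd using h1
  choose i hi using fun ξ => hΦ (K ξ) (hKc ξ) (hKP ξ)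
  choose y hyK hyΦ using fun ξ => hi ξ (j ξ)
  refine ⟨fun a => {z | ∃ ξ, i ξ = a ∧ y ξ = z}, ?_, ?_⟩
  · intro a
    apply hU.of_map (hΦm a)
    · rintro z ⟨ξ, rfl, rfl⟩
      rw [hyΦ]; exact mem_range_self _
    · rintro z ⟨ξ, hξ, rfl⟩ z' ⟨ξ', hξ', rfl⟩ h
      have e1 : Φ a (y ξ) = j ξ := by rw [← hξ]; exact hyΦ ξ
      have e2 : Φ a (y ξ') = j ξ' := by rw [← hξ']; exact hyΦ ξ'
      rw [e1, e2] at h
      rw [hj h]
  · intro h0
    obtain ⟨ξ, hξ⟩ := hcof _ h0
    have : y ξ ∈ Z ξ := hξ (mem_iUnion.mpr ⟨i ξ, ξ, rfl, rfl⟩)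
    exact Set.disjoint_left.mp (hKd ξ) (hyK ξ) this

lemma not_null_univ : ¬ Null univ := by
  simp [Null]

lemma addC_witness (I : Set ℝ → Prop) (h1 : ∀ x, I {x}) (h2 : ¬ I univ) :
    ∃ F : Set (Set ℝ), (∀ A ∈ F, I A) ∧ ¬ I (⋃₀ F) ∧ Cardinal.mk F = addC I := by
  have hne : {κ | ∃ F : Set (Set ℝ), (∀ A ∈ F, I A) ∧ ¬ I (⋃₀ F) ∧ Cardinal.mk F = κ}.Nonempty := by
    refine ⟨_, range (fun x : ℝ => ({x} : Set ℝ)), ?_, ?_, rfl⟩
    · rintro _ ⟨x, rfl⟩; exact h1 x
    · have : ⋃₀ range (fun x : ℝ => ({x} : Set ℝ)) = univ := by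
        ext x; simp
      rw [this]; exact h2
  exact csInf_mem hne

lemma addC_le {I : Set ℝ → Prop} (F : Set (Set ℝ)) (h1 : ∀ A ∈ F, I A) (h2 : ¬ I (⋃₀ F)) :
    addC I ≤ Cardinal.mk F := csInf_le' ⟨F, h1, h2, rfl⟩

lemma sUnion_of_lt {I : Set ℝ → Prop} (F : Set (Set ℝ)) (h1 : ∀ A ∈ F, I A)
    (h2 : Cardinal.mk F < addC I) : I (⋃₀ F) := by
  by_contra h
  exact absurd (addC_le F h1 h) (not_le.mpr h2)

lemma mem_of_lt_nonC {I : Set ℝ → Prop} (A : Set ℝ) (h : Cardinal.mk A < nonC I) : I A := by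
  by_contra hA
  have h1 : nonC I ≤ Cardinal.mk A :=
    csInf_le' (s := {κ | ∃ A : Set ℝ, ¬ I A ∧ Cardinal.mk A = κ}) ⟨A, hA, rfl⟩
  exact absurd h1 (not_le.mpr h)

lemma nonC_witness (I : Set ℝ → Prop) (h2 : ¬ I univ) :
    ∃ A : Set ℝ, ¬ I A ∧ Cardinal.mk A = nonC I :=
  csInf_mem (s := {κ | ∃ A : Set ℝ, ¬ I A ∧ Cardinal.mk A = κ}) ⟨_, univ, h2, rfl⟩

lemma cofC_witness (I : Set ℝ → Prop) :
    ∃ F : Set (Set ℝ), (∀ A ∈ F, I A) ∧ (∀ A, I A → ∃ B ∈ F, A ⊆ B) ∧ Cardinal.mk F = cofC I :=
  csInf_mem (s := {κ | ∃ F : Set (Set ℝ), (∀ A ∈ F, I A) ∧ (∀ A, I A → ∃ B ∈ F, A ⊆ B) ∧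
    Cardinal.mk F = κ}) ⟨_, {A | I A}, fun _ h => h, fun A hA => ⟨A, hA, Subset.rfl⟩, rfl⟩

lemma mk_Iio_lt' (c : Cardinal.{0}) (i : c.ord.ToType) : Cardinal.mk (Iio i) < c := by
  simpa using Cardinal.mk_Iio_lt i

/-- The restriction data: an index type of size add(N), null sets and a probability measure on
the line such that countably many sets of positive measure are met by a single null set. -/
lemma exists_cover_real : ∃ (ρ : Measure ℝ) (_ : IsProbabilityMeasure ρ) (_ : ∀ x, ρ {x} = 0)
    (N : (addC Null).ord.ToType → Set ℝ), (∀ i, ρ (N i) = 0) ∧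
    ∀ F : Set (Set ℝ), F.Countable → (∀ A ∈ F, MeasurableSet A ∧ 0 < ρ A) →
      ∃ i, ∀ A ∈ F, (N i ∩ A).Nonempty := by
  obtain ⟨F, hF1, hF2, hF3⟩ := addC_witness Null (fun x => by simp [Null]) not_null_univ
  have hcard : Cardinal.mk ((addC Null).ord.ToType) = Cardinal.mk F := by rw [Cardinal.mk_ord_toType, hF3]
  obtain ⟨e⟩ := Cardinal.eq.mp hcard
  set W := ⋃₀ F with hW
  -- find a bounded piece
  obtain ⟨n, hn⟩ : ∃ n : ℕ, volume (W ∩ Icc (-(n : ℝ)) n) ≠ 0 := by
    by_contra hcon
    push Not at hcon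
    apply hF2
    have : W ⊆ ⋃ n : ℕ, W ∩ Icc (-(n : ℝ)) n := by
      intro x hx
      obtain ⟨n, hn⟩ := exists_nat_ge |x|
      rw [mem_iUnion]
      exact ⟨n, hx, abs_le.mp hn⟩
    exact measure_mono_null this (measure_iUnion_null hcon)
  set W' := W ∩ Icc (-(n : ℝ)) n with hW'
  have hfin : volume W' ≠ ∞ := by
    have : volume W' ≤ volume (Icc (-(n : ℝ)) n) := measure_mono inter_subset_right
    rw [Real.volume_Icc] at this
    exact (lt_of_le_of_lt this ENNReal.ofReal_lt_top).ne
  set H := toMeasurable volume W' with hH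
  have hHm : MeasurableSet H := measurableSet_toMeasurable _ _
  have hHv : volume H = volume W' := measure_toMeasurable _
  have hH0 : volume H ≠ 0 := by rw [hHv]; exact hn
  have hHf : volume H ≠ ∞ := by rw [hHv]; exact hfin
  set ρ := ProbabilityTheory.cond volume H with hρ
  have hρp : IsProbabilityMeasure ρ := ProbabilityTheory.cond_isProbabilityMeasure_of_finite hH0 hHf
  have hac : ρ ≪ volume := ProbabilityTheory.cond_absolutelyContinuous
  set N : (addC Null).ord.ToType → Set ℝ := fun i => (⋃ k ∈ Iio i, (e k : Set ℝ)) ∪ (e i : Set ℝ) with hN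
  have hNnull : ∀ i, volume (N i) = 0 := by
    intro i
    apply measure_union_null
    · have h1 : (⋃ k ∈ Iio i, (e k : Set ℝ)) = ⋃₀ ((fun k => (e k : Set ℝ)) '' Iio i) := by
        rw [sUnion_image]
      rw [h1]
      apply sUnion_of_lt (I := Null)
      · rintro _ ⟨k, _, rfl⟩
        exact hF1 _ (e k).2
      · exact lt_of_le_of_lt Cardinal.mk_image_le (mk_Iio_lt' _ i)
    · exact hF1 _ (e i).2
  refine ⟨ρ, hρp, fun x => hac (by simp), N, fun i => hac (hNnull i), ?_⟩
  intro G hGc hG
  by_contra hcon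
  push Not at hcon
  have h1 : ∀ A ∈ G, ∃ k, ((e k : Set ℝ) ∩ A).Nonempty := by
    intro A hA
    obtain ⟨hAm, hAp⟩ := hG A hA
    rw [hρ, ProbabilityTheory.cond_apply hHm] at hAp
    have h2 : volume (H ∩ A) ≠ 0 := by
      intro h0
      rw [h0, mul_zero] at hAp
      exact lt_irrefl _ hAp
    rw [hH, Measure.measure_toMeasurable_inter hAm hfin] at h2
    obtain ⟨x, hx⟩ := nonempty_of_measure_ne_zero h2
    obtain ⟨⟨B, hB, hxB⟩, -⟩ := hx.1
    refine ⟨e.symm ⟨B, hB⟩, x, ?_, hx.2⟩
    simpa using hxB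
  have hne : Nonempty ((addC Null).ord.ToType) := by
    by_contra hemp
    rw [not_nonempty_iff] at hemp
    apply hF2
    have : W = ∅ := by
      rw [hW, sUnion_eq_empty]
      intro B hB
      exact (hemp.false (e.symm ⟨B, hB⟩)).elim
    rw [this]; simp [Null]
  choose! k hk using h1
  have h3 : ∀ i, ∃ A ∈ G, i < k A := by
    intro i
    obtain ⟨A, hA, hAe⟩ := hcon i
    refine ⟨A, hA, ?_⟩
    by_contra hle
    obtain ⟨x, hx1, hx2⟩ := hk A hA
    have hxN : x ∈ N i ∩ A := by
      refine ⟨?_, hx2⟩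
      rcases lt_or_eq_of_le (not_lt.mp hle) with h | h
      · left
        simp only [mem_iUnion, exists_prop]
        exact ⟨k A, h, hx1⟩
      · right; rw [← h]; exact hx1
    rw [hAe] at hxN
    exact hxN
  apply hF2
  have h4 : W ⊆ ⋃ A ∈ G, N (k A) := by
    rintro x ⟨B, hB, hxB⟩
    obtain ⟨A, hA, hlt⟩ := h3 (e.symm ⟨B, hB⟩)
    simp only [mem_iUnion, exists_prop]
    refine ⟨A, hA, Or.inl ?_⟩
    simp only [mem_iUnion, exists_prop]
    refine ⟨e.symm ⟨B, hB⟩, hlt, ?_⟩
    simpa using hxB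
  exact measure_mono_null h4 ((measure_biUnion_null_iff hGc).mpr fun A _ => hNnull (k A))

instance : StandardBorelSpace C := by unfold C; infer_instance

lemma mk_C : Cardinal.mk C = Cardinal.continuum := by simp [C]

/-- A Borel isomorphism from the line onto Cantor space. -/
noncomputable def eRC : ℝ ≃ᵐ C := PolishSpace.measurableEquivOfNotCountable
  (by
    rw [← Set.countable_univ_iff]
    intro h
    have := h.measure_zero (volume : Measure ℝ)
    simp at this)
  (by
    intro h
    have h1 : Cardinal.mk C ≤ Cardinal.aleph0 := Cardinal.mk_le_aleph0_iff.mpr h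
    rw [mk_C] at h1
    exact absurd h1 (not_le.mpr Cardinal.aleph0_lt_continuum))

lemma X_not_countable : ¬ Countable X := by
  intro h
  have h1 : Function.Injective (fun (w : C) (_ : List Bool) => w) := by
    intro a b hab
    exact congrFun hab []
  have h2 : Countable C := h1.countable
  have h3 : Cardinal.mk C ≤ Cardinal.aleph0 := Cardinal.mk_le_aleph0_iff.mpr h2
  rw [mk_C] at h3
  exact absurd h3 (not_le.mpr Cardinal.aleph0_lt_continuum)

lemma R_not_countable : ¬ Countable ℝ := by
  rw [← Set.countable_univ_iff]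
  intro h
  have := h.measure_zero (volume : Measure ℝ)
  simp at this

/-- A Borel isomorphism from X onto the line. -/
noncomputable def eXR : X ≃ᵐ ℝ := PolishSpace.measurableEquivOfNotCountable X_not_countable
  R_not_countable

lemma UN.image_equiv {S S' : Type*} [MeasurableSpace S] [MeasurableSpace S']
    [MeasurableSingletonClass S] [MeasurableSingletonClass S'] (e : S ≃ᵐ S') {A : Set S}
    (hA : UN A) : UN (e '' A) := by
  apply hA.of_map (Φ := e.symm) e.symm.measurable
  · rintro _ ⟨x, hx, rfl⟩; simpa using hx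
  · exact e.symm.injective.injOn

/-- The set map version of the covering data, on Cantor space. -/
lemma exists_cover_C : ∃ (ρ : Measure C) (_ : IsProbabilityMeasure ρ) (_ : Atomless ρ)
    (N : (addC Null).ord.ToType → Set C), (∀ i, ρ (N i) = 0) ∧
    ∀ F : Set (Set C), F.Countable → (∀ A ∈ F, MeasurableSet A ∧ 0 < ρ A) →
      ∃ i, ∀ A ∈ F, (N i ∩ A).Nonempty := by
  obtain ⟨ρ, hρ, hρa, N, hN, hcov⟩ := exists_cover_real
  refine ⟨ρ.map eRC, Measure.isProbabilityMeasure_map eRC.measurable.aemeasurable, ?_,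
    fun i => eRC '' N i, ?_, ?_⟩
  · intro x
    rw [MeasurableEquiv.map_apply]
    have : eRC ⁻¹' {x} = {eRC.symm x} := by
      ext y; simp only [mem_preimage, mem_singleton_iff]
      constructor
      · rintro rfl; simp
      · rintro rfl; simp
    rw [this]; exact hρa _
  · intro i
    rw [MeasurableEquiv.map_apply, eRC.injective.preimage_image]
    exact hN i
  · intro F hFc hF
    obtain ⟨i, hi⟩ := hcov ((fun A => eRC ⁻¹' A) '' F) (hFc.image _) (by
      rintro _ ⟨A, hA, rfl⟩
      obtain ⟨h1, h2⟩ := hF A hA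
      refine ⟨eRC.measurable h1, ?_⟩
      rwa [MeasurableEquiv.map_apply] at h2)
    refine ⟨i, fun A hA => ?_⟩
    obtain ⟨x, hx1, hx2⟩ := hi _ ⟨A, hA, rfl⟩
    exact ⟨eRC x, ⟨x, hx1, rfl⟩, hx2⟩

lemma P_atomless (ρ : Measure C) [IsProbabilityMeasure ρ] (h : Atomless ρ) : Atomless (P ρ) := by
  intro y
  refine measure_mono_null (t := {z : X | z [] ∈ ({y []} : Set C)}) ?_ ?_
  · rintro _ rfl; simp
  · rw [P_coord ρ [] (measurableSet_singleton _)]
    exact h _

/-- Sets of size less than non(N) are null for every atomless probability measure. -/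
lemma UN_of_lt_non {S : Type} [MeasurableSpace S] [StandardBorelSpace S] (A : Set S)
    (hA : Cardinal.mk A < nonC Null) : UN A := by
  intro μ hμ hat
  obtain ⟨f, hf, hmap, -⟩ := exists_toReal μ hat
  have h1 : Null (f '' A) := mem_of_lt_nonC _ (lt_of_le_of_lt Cardinal.mk_image_le hA)
  have h2 : (μ.map f) (f '' A) = 0 := by
    rw [hmap]
    exact Measure.absolutelyContinuous_of_le Measure.restrict_le_self h1
  exact measure_mono_null (subset_preimage_image f A)
    (Measure.preimage_null_of_map_null hf.aemeasurable h2)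

/-- Cofinal families transfer to every atomless probability measure. -/
lemma exists_cofinal {S : Type} [MeasurableSpace S] [StandardBorelSpace S] (μ : Measure S)
    [IsProbabilityMeasure μ] (hμ : Atomless μ) (F : Set (Set ℝ)) (hF1 : ∀ A ∈ F, Null A)
    (hF2 : ∀ A, Null A → ∃ B ∈ F, A ⊆ B) :
    ∃ Z : F → Set S, (∀ ξ, μ (Z ξ) = 0) ∧ ∀ A, μ A = 0 → ∃ ξ, A ⊆ Z ξ := by
  obtain ⟨f, hf, hmap, hnull⟩ := exists_toReal μ hμ
  refine ⟨fun ξ => f ⁻¹' ξ.1, fun ξ => ?_, fun A hA => ?_⟩
  · apply Measure.preimage_null_of_map_null hf.aemeasurable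
    rw [hmap]
    exact Measure.absolutelyContinuous_of_le Measure.restrict_le_self (hF1 ξ.1 ξ.2)
  · obtain ⟨B, hB, hAB⟩ := hF2 (f '' A) (hnull A hA)
    exact ⟨⟨B, hB⟩, fun x hx => hAB ⟨x, hx, rfl⟩⟩

/-- The known inequality add(N) ≤ add(UN). -/
lemma addC_le_addC : addC Null ≤ addC UnivNull := by
  obtain ⟨F, hF1, hF2, hF3⟩ := addC_witness UnivNull (fun x μ _ h => h x) (by
    intro h
    have h1 : ∃ ρ : Measure ℝ, IsProbabilityMeasure ρ ∧ ∀ x, ρ {x} = 0 := by
      obtain ⟨ρ, h1, h2, -⟩ := exists_cover_real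
      exact ⟨ρ, h1, h2⟩
    obtain ⟨ρ, h1, h2⟩ := h1
    have := h ρ h1 h2
    rw [measure_univ] at this
    exact one_ne_zero this)
  by_contra hlt
  rw [not_le, ← hF3] at hlt
  apply hF2
  intro μ hμ hat
  obtain ⟨f, hf, hmap, hnull⟩ := exists_toReal μ hat
  have h1 : Null (⋃₀ ((fun A => f '' A) '' F)) := by
    apply sUnion_of_lt
    · rintro _ ⟨A, hA, rfl⟩
      exact hnull A (hF1 A hA μ hμ hat)
    · exact lt_of_le_of_lt Cardinal.mk_image_le hlt
  have h2 : (μ.map f) (⋃₀ ((fun A => f '' A) '' F)) = 0 := by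
    rw [hmap]
    exact Measure.absolutelyContinuous_of_le Measure.restrict_le_self h1
  refine measure_mono_null ?_ (Measure.preimage_null_of_map_null hf.aemeasurable h2)
  rintro x ⟨A, hA, hx⟩
  exact ⟨f '' A, ⟨A, hA, rfl⟩, x, hx, rfl⟩

/-- Main theorem: a universally null set of size at least cof(N) forces
add(UN) ≤ add(N). -/
lemma add_le_of_big (U : Set ℝ) (hU : UnivNull U) (hcard : cofC Null ≤ Cardinal.mk U) :
    addC UnivNull ≤ addC Null := by
  obtain ⟨ρ, hρ, hρa, N, hN, hcov⟩ := exists_cover_C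
  obtain ⟨F, hF1, hF2, hF3⟩ := cofC_witness Null
  obtain ⟨Z, hZ, hcof⟩ := exists_cofinal (P ρ) (P_atomless ρ hρa) F hF1 hF2
  rw [← hF3] at hcard
  obtain ⟨j⟩ := hcard
  have hUN : UN U := hU
  obtain ⟨Y, hY1, hY2⟩ := construct ρ N hN hcov Z hZ hcof (fun ξ => eRC (j ξ : ℝ))
    (by
      intro a b hab
      apply j.injective
      apply Subtype.ext
      exact eRC.injective hab)
    (by
      have h1 : UN (eRC '' U) := hUN.image_equiv eRC
      intro μ hμ hat
      refine measure_mono_null ?_ (h1 μ hμ hat)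
      rintro _ ⟨ξ, rfl⟩
      exact ⟨j ξ, (j ξ).2, rfl⟩)
  have h1 : addC UnivNull ≤ Cardinal.mk (range (fun i => eXR '' Y i)) := by
    apply addC_le
    · rintro _ ⟨i, rfl⟩
      exact (hY1 i).image_equiv eXR
    · intro h
      have h2 : ((P ρ).map eXR) (⋃₀ range (fun i => eXR '' Y i)) = 0 := by
        apply h
        · exact Measure.isProbabilityMeasure_map eXR.measurable.aemeasurable
        · intro x
          rw [MeasurableEquiv.map_apply]
          have : eXR ⁻¹' {x} = {eXR.symm x} := by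
            ext y; simp only [mem_preimage, mem_singleton_iff]
            constructor
            · rintro rfl; simp
            · rintro rfl; simp
          rw [this]; exact P_atomless ρ hρa _
      rw [MeasurableEquiv.map_apply] at h2
      apply hY2
      refine measure_mono_null ?_ h2
      intro y hy
      obtain ⟨i, hi⟩ := mem_iUnion.mp hy
      exact ⟨eXR '' Y i, ⟨i, rfl⟩, y, hi, rfl⟩
  refine h1.trans (Cardinal.mk_range_le.trans ?_)
  rw [Cardinal.mk_ord_toType]

/-- Codes for sequences of open sets. -/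
abbrev Code : Type := ℕ → ℕ → Bool

lemma exists_basis_seq : ∃ O : ℕ → Set ℝ, (∀ n, IsOpen (O n)) ∧
    ∀ U : Set ℝ, IsOpen U → ∀ x ∈ U, ∃ n, x ∈ O n ∧ O n ⊆ U := by
  obtain ⟨B, hBc, -, hB⟩ := TopologicalSpace.exists_countable_basis ℝ
  have hne : B.Nonempty := by
    obtain ⟨t, ht, -⟩ := hB.mem_nhds_iff.mp (isOpen_univ.mem_nhds (mem_univ (0 : ℝ)))
    exact ⟨t, ht⟩
  obtain ⟨O, hO⟩ := hBc.exists_eq_range hne
  refine ⟨O, fun n => hB.isOpen (hO ▸ mem_range_self n), fun U hU x hx => ?_⟩
  obtain ⟨t, ht, hxt, htU⟩ := hB.mem_nhds_iff.mp (hU.mem_nhds hx)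
  rw [hO] at ht
  obtain ⟨n, rfl⟩ := ht
  exact ⟨n, hxt, htU⟩

/-- The G_δ set coded by a. -/
def Hset (O : ℕ → Set ℝ) (a : Code) : Set ℝ := {x | ∀ k, ∃ n, a k n = true ∧ x ∈ O n}

lemma measurableSet_Hset (O : ℕ → Set ℝ) (hO : ∀ n, IsOpen (O n)) :
    MeasurableSet {p : Code × ℝ | p.2 ∈ Hset O p.1} := by
  have : {p : Code × ℝ | p.2 ∈ Hset O p.1} =
      ⋂ k : ℕ, ⋃ n : ℕ, ({p : Code × ℝ | p.1 k n = true} ∩ {p : Code × ℝ | p.2 ∈ O n}) := by
    ext p; simp [Hset]
  rw [this]
  refine MeasurableSet.iInter fun k => MeasurableSet.iUnion fun n => MeasurableSet.inter ?_ ?_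
  · have h1 : Measurable (fun p : Code × ℝ => p.1 k n) :=
      (measurable_pi_apply n).comp ((measurable_pi_apply k).comp measurable_fst)
    exact h1 (measurableSet_singleton true)
  · exact measurable_snd (hO n).measurableSet

lemma exists_code (O : ℕ → Set ℝ) (hO : ∀ n, IsOpen (O n))
    (hB : ∀ U : Set ℝ, IsOpen U → ∀ x ∈ U, ∃ n, x ∈ O n ∧ O n ⊆ U) (Z : Set ℝ) (hZ : Null Z) :
    ∃ a : Code, volume (Hset O a) = 0 ∧ Z ⊆ Hset O a := by
  classical
  have h : ∀ k : ℕ, ∃ U ⊇ Z, IsOpen U ∧ volume U < ((k : ℝ≥0∞) + 1)⁻¹ := fun k =>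
    Set.exists_isOpen_lt_of_lt Z _ (by
      have : volume Z = 0 := hZ
      rw [this]
      exact ENNReal.inv_pos.mpr (by simp))
  choose U hU1 hU2 hU3 using h
  refine ⟨fun k n => decide (O n ⊆ U k), ?_, ?_⟩
  · have h1 : ∀ k : ℕ, volume (Hset O (fun k n => decide (O n ⊆ U k))) ≤ ((k : ℝ≥0∞) + 1)⁻¹ := by
      intro k
      refine le_trans (measure_mono ?_) (hU3 k).le
      intro x hx
      obtain ⟨n, hn, hxn⟩ := hx k
      exact (of_decide_eq_true hn) hxn
    have h2 : Tendsto (fun k : ℕ => ((k : ℝ≥0∞) + 1)⁻¹) atTop (𝓝 0) := by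
      have := (ENNReal.tendsto_inv_nat_nhds_zero).comp (tendsto_add_atTop_nat 1)
      refine this.congr fun k => ?_
      simp
    exact le_antisymm (ge_of_tendsto' h2 h1) bot_le
  · intro x hx k
    obtain ⟨n, hxn, hn⟩ := hB (U k) (hU2 k) x (hU1 k hx)
    exact ⟨n, decide_eq_true hn, hxn⟩

/-- A Grzegorek type theorem: there is a universally null set of size non(N). -/
lemma exists_UN_non : ∃ U : Set ℝ, UnivNull U ∧ Cardinal.mk U = nonC Null := by
  obtain ⟨X0, hX0, hcard⟩ := nonC_witness Null not_null_univ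
  obtain ⟨O, hO, hB⟩ := exists_basis_seq
  have hc : Cardinal.mk ((nonC Null).ord.ToType) = Cardinal.mk X0 := by
    rw [Cardinal.mk_ord_toType, hcard]
  obtain ⟨e⟩ := Cardinal.eq.mp hc
  have h1 : ∀ i, ∃ a : Code, volume (Hset O a) = 0 ∧ (fun k => (e k : ℝ)) '' Iio i ⊆ Hset O a := by
    intro i
    apply exists_code O hO hB
    apply mem_of_lt_nonC
    exact lt_of_le_of_lt Cardinal.mk_image_le (mk_Iio_lt' _ i)
  choose a ha1 ha2 using h1
  set g : (nonC Null).ord.ToType → Code × ℝ := fun i => (a i, (e i : ℝ)) with hg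
  have hginj : Function.Injective g := by
    intro i j hij
    have : (e i : ℝ) = e j := congrArg Prod.snd hij
    exact e.injective (Subtype.ext this)
  have hUN : UN (range g) := by
    intro μ hμ hat
    have hm : MeasurableSet {q : (Code × ℝ) × ℝ |
        ¬ (volume (Hset O q.1.1) = 0 ∧ q.2 ∈ Hset O q.1.1)} := by
      apply MeasurableSet.compl
      apply MeasurableSet.inter
      · have h3 : Measurable (fun b : Code => volume (Hset O b)) := by
          have := measurable_measure_prodMk_left (ν := (volume : Measure ℝ)) (measurableSet_Hset O hO)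
          exact this
        exact (h3.comp (measurable_fst.comp measurable_fst)) (measurableSet_singleton 0)
      · have h4 : Measurable (fun q : (Code × ℝ) × ℝ => (q.1.1, q.2)) :=
          (measurable_fst.comp measurable_fst).prodMk measurable_snd
        exact h4 (measurableSet_Hset O hO)
    have h5 : ∀ᵐ q ∂μ, ∀ᵐ x ∂(volume : Measure ℝ),
        ¬ (volume (Hset O q.1) = 0 ∧ x ∈ Hset O q.1) := by
      refine Filter.Eventually.of_forall fun q => ?_
      by_cases h : volume (Hset O q.1) = 0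
      · have h6 : ∀ᵐ x ∂(volume : Measure ℝ), x ∉ Hset O q.1 := measure_eq_zero_iff_ae_notMem.mp h
        filter_upwards [h6] with x hx hcon
        exact hx hcon.2
      · exact Filter.Eventually.of_forall fun x hcon => h hcon.1
    rw [Measure.ae_ae_comm hm] at h5
    obtain ⟨x0, hx0, hx1⟩ : ∃ x0 ∈ X0, ∀ᵐ q ∂μ, ¬ (volume (Hset O q.1) = 0 ∧ x0 ∈ Hset O q.1) := by
      by_contra hcon
      push Not at hcon
      apply hX0
      refine measure_mono_null ?_ (ae_iff.mp h5)
      intro x hx
      simp only [mem_ofPred_eq]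
      exact fun hh => (hcon x hx) (by
        filter_upwards [hh] with q hq
        tauto)
    set i0 := e.symm ⟨x0, hx0⟩ with hi0
    have hei0 : (e i0 : ℝ) = x0 := by simp [hi0]
    have hsub : range g ⊆ {q : Code × ℝ | volume (Hset O q.1) = 0 ∧ x0 ∈ Hset O q.1} ∪
        (g '' Iio i0 ∪ {g i0}) := by
      rintro _ ⟨i, rfl⟩
      rcases lt_trichotomy i0 i with h | h | h
      · left
        refine ⟨ha1 i, ha2 i ⟨i0, h, ?_⟩⟩
        exact hei0
      · right; right; rw [h]; rfl
      · right; left; exact ⟨i, h, rfl⟩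
    refine measure_mono_null hsub (measure_union_null ?_ (measure_union_null ?_ (hat _)))
    · have := ae_iff.mp hx1
      simpa using this
    · exact UN_of_lt_non (g '' Iio i0)
        (lt_of_le_of_lt Cardinal.mk_image_le (mk_Iio_lt' _ i0)) μ hμ hat
  have hnc : ¬ Countable (Code × ℝ) := by
    intro h
    have : Countable ℝ := (Function.Injective.countable (f := fun x : ℝ => ((fun _ _ => true : Code), x))
      (fun a b hab => congrArg Prod.snd hab))
    exact R_not_countable this
  set e' : (Code × ℝ) ≃ᵐ ℝ := PolishSpace.measurableEquivOfNotCountable hnc R_not_countable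
  refine ⟨e' '' range g, hUN.image_equiv e', ?_⟩
  rw [Cardinal.mk_image_eq e'.injective, Cardinal.mk_range_eq g hginj, Cardinal.mk_ord_toType]

lemma cofC_le_continuum : cofC Null ≤ Cardinal.continuum := by
  obtain ⟨O, hO, hB⟩ := exists_basis_seq
  have h1 : cofC Null ≤ Cardinal.mk (Hset O '' {a | volume (Hset O a) = 0}) := by
    refine csInf_le' (s := {κ | ∃ F : Set (Set ℝ), (∀ A ∈ F, Null A) ∧
      (∀ A, Null A → ∃ B ∈ F, A ⊆ B) ∧ Cardinal.mk F = κ}) ⟨_, ?_, ?_, rfl⟩
    · rintro _ ⟨a, ha, rfl⟩; exact ha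
    · intro A hA
      obtain ⟨a, ha1, ha2⟩ := exists_code O hO hB A hA
      exact ⟨_, ⟨a, ha1, rfl⟩, ha2⟩
  refine h1.trans (Cardinal.mk_image_le.trans ((Cardinal.mk_set_le _).trans ?_))
  simp [Code]

lemma aleph_one_le_addC : Cardinal.aleph 1 ≤ addC Null := by
  obtain ⟨F, hF1, hF2, hF3⟩ := addC_witness Null (fun x => by simp [Null]) not_null_univ
  rw [← hF3]
  by_contra h
  rw [Cardinal.aleph_one_le_iff, not_lt, Cardinal.le_aleph0_iff_set_countable] at h
  apply hF2
  exact (measure_sUnion_null_iff h).mpr hF1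

/-- A set that is not Lebesgue null is not universally null. -/
lemma not_univNull_of_not_null (A : Set ℝ) (hA : ¬ Null A) : ¬ UnivNull A := by
  intro h
  apply hA
  have h1 : ∀ n : ℕ, volume (A ∩ Icc (-(n : ℝ)) n) = 0 := by
    intro n
    have h2 : UN A := h
    have h3 : (volume.restrict (Icc (-(n : ℝ)) n)) A = 0 := by
      have : IsFiniteMeasure (volume.restrict (Icc (-(n : ℝ)) n)) := by
        constructor
        rw [Measure.restrict_apply_univ, Real.volume_Icc]
        exact ENNReal.ofReal_lt_top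
      apply h2.finite
      intro x
      exact Measure.absolutelyContinuous_of_le Measure.restrict_le_self (by simp)
    rwa [Measure.restrict_apply' measurableSet_Icc] at h3
  refine measure_mono_null ?_ (measure_iUnion_null h1)
  intro x hx
  obtain ⟨n, hn⟩ := exists_nat_ge |x|
  rw [mem_iUnion]
  exact ⟨n, hx, abs_le.mp hn⟩

lemma addC_UN_le_non : addC UnivNull ≤ nonC Null := by
  obtain ⟨X0, hX0, hcard⟩ := nonC_witness Null not_null_univ
  have h1 : addC UnivNull ≤ Cardinal.mk ((fun x : ℝ => ({x} : Set ℝ)) '' X0) := by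
    apply addC_le
    · rintro _ ⟨x, _, rfl⟩ μ _ h
      exact h x
    · have : ⋃₀ ((fun x : ℝ => ({x} : Set ℝ)) '' X0) = X0 := by
        rw [sUnion_image]; simp
      rw [this]
      exact not_univNull_of_not_null X0 hX0
  rw [← hcard]
  exact h1.trans Cardinal.mk_image_le

/-- ZFC theorem: the additivity of the universally null ideal equals the additivity of the null
ideal as soon as some universally null set has at least cof(N) elements; in particular if
non(N) = cof(N), and in particular if the continuum is at most the second uncountable cardinal. -/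
theorem result :
    (∀ U : Set ℝ, UnivNull U → cofC Null ≤ Cardinal.mk U → addC UnivNull = addC Null) ∧
    (nonC Null = cofC Null → addC UnivNull = addC Null) ∧
    (Cardinal.continuum ≤ (Cardinal.aleph 2 : Cardinal.{0}) → addC UnivNull = addC Null) := by
  have h1 : ∀ U : Set ℝ, UnivNull U → cofC Null ≤ Cardinal.mk U → addC UnivNull = addC Null :=
    fun U hU hcard => le_antisymm (add_le_of_big U hU hcard) addC_le_addC
  have h2 : cofC Null ≤ nonC Null → addC UnivNull = addC Null := by
    intro h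
    obtain ⟨U, hU, hc⟩ := exists_UN_non
    exact h1 U hU (hc ▸ h)
  refine ⟨h1, fun h => h2 h.ge, fun h => ?_⟩
  rcases lt_or_ge (Cardinal.aleph 1) (nonC Null) with h3 | h3
  · apply h2
    refine cofC_le_continuum.trans (h.trans ?_)
    have h5 : (2 : Ordinal.{0}) = 1 + 1 := by norm_num
    rw [h5, ← Cardinal.succ_aleph]
    exact Order.succ_le_of_lt h3
  · exact le_antisymm (addC_UN_le_non.trans (h3.trans aleph_one_le_addC)) addC_le_addC

end Pool.Agent.Results.MP_f79ffc_lc.AddUN
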